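import Pool.Agent.H84.SM.Targets2

set_option autoImplicit false

namespace Pool.Agent.H78.SM.S

open MvPolynomial SC Pool.Agent.H27.LV Pool.Agent.H84.SM
open Pool.Agent.H92.OD (HS cf sg uu Lat geO IsO DF DD cf_mul_low cf_add geO_add geO_mul cf_sg
  sg_mul_sg sg_zero_one algebraMap_HS cf_sum hs_ext geO_sg DF_uu exists_IsO)

/-- chain rule -/
theorem chain {k R σ : Type} [Field k] [CommRing R] [Algebra k R] [Fintype σ]
    (D : Derivation k R R) (x : σ → R) (P : MvPolynomial σ k) :
    D (aeval x P) = ∑ i, aeval x (pderiv i P) * D (x i) := by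
  classical
  induction P using MvPolynomial.induction_on with
  | C a =>
    rw [algHom_C, D.map_algebraMap]
    simp
  | add p q hp hq =>
    simp only [map_add, hp, hq, add_mul, Finset.sum_add_distrib]
  | mul_X p s hp =>
    simp only [map_mul, aeval_X, Derivation.leibniz, smul_eq_mul, hp, map_add, pderiv_X,
      add_mul, Finset.sum_add_distrib]
    congr 1
    · rw [Finset.sum_eq_single s]
      · simp
      · intro j _ hj
        rw [Pi.single_eq_of_ne' hj]
        simp
      · simp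
    · rw [Finset.mul_sum]
      refine Finset.sum_congr rfl fun i _ => ?_
      ring

section Hahn

variable {k : Type} [Field k]

theorem lat_mul {n : ℕ} {x y : HS k} (hx : Lat n x) (hy : Lat n y) : Lat n (x * y) := by
  classical
  intro t ht
  have h1 : cf (x * y) t = ∑ ij ∈ Finset.antidiagonal
      (HahnSeries.isPWO_support (x : HahnSeries ℚ k))
      (HahnSeries.isPWO_support (y : HahnSeries ℚ k)) t,
      cf x ij.1 * cf y ij.2 := HahnSeries.coeff_mul
  rw [h1] at ht
  obtain ⟨ij, hij, hne⟩ := Finset.exists_ne_zero_of_sum_ne_zero ht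
  have h2 : ij.1 + ij.2 = t := (Finset.mem_antidiagonal.1 hij).2.2
  obtain ⟨m, hm⟩ := hx _ (left_ne_zero_of_mul hne)
  obtain ⟨m', hm'⟩ := hy _ (right_ne_zero_of_mul hne)
  refine ⟨m + m', ?_⟩
  rw [← h2, add_mul, hm, hm']
  push_cast
  ring

theorem lat_add {n : ℕ} {x y : HS k} (hx : Lat n x) (hy : Lat n y) : Lat n (x + y) := by
  intro t ht
  rw [cf_add] at ht
  by_cases h : cf x t = 0
  · rw [h, zero_add] at ht
    exact hy t ht
  · exact hx t h

theorem lat_sg (m : ℤ) (c : k) : Lat 1 (sg (m : ℚ) c) := by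
  intro t ht
  rw [cf_sg] at ht
  refine ⟨m, ?_⟩
  by_cases h : t = (m : ℚ)
  · rw [h]; simp
  · rw [if_neg h] at ht
    exact absurd rfl ht

theorem lat_const (c : k) : Lat 1 (algebraMap k (HS k) c) := by
  rw [algebraMap_HS]
  have := lat_sg 0 (algebraMap k k c)
  rwa [Int.cast_zero] at this

theorem lat_aeval {σ : Type} {y : σ → HS k} (hy : ∀ i, Lat 1 (y i)) (P : MvPolynomial σ k) :
    Lat 1 (aeval y P) := by
  induction P using MvPolynomial.induction_on with
  | C a =>
    rw [algHom_C]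
    exact lat_const a
  | add p q hp hq =>
    rw [map_add]
    exact lat_add hp hq
  | mul_X p s hp =>
    rw [map_mul, aeval_X]
    exact lat_mul hp (hy s)

theorem cf_const (c : k) : cf (algebraMap k (HS k) c) 0 = c := by
  rw [algebraMap_HS, cf_sg]
  simp

theorem low_aeval {σ : Type} {y : σ → HS k} (hy : ∀ i, geO 0 (y i)) (P : MvPolynomial σ k) :
    geO 0 (aeval y P) ∧ cf (aeval y P) 0 = eval (fun i => cf (y i) 0) P := by
  induction P using MvPolynomial.induction_on with
  | C a =>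
    rw [algHom_C, cf_const, eval_C]
    exact ⟨geO_sg 0 _, rfl⟩
  | add p q hp hq =>
    rw [map_add, map_add, cf_add, hp.2, hq.2]
    exact ⟨geO_add hp.1 hq.1, rfl⟩
  | mul_X p s hp =>
    rw [map_mul, aeval_X, map_mul, eval_X]
    have h := cf_mul_low hp.1 (hy s)
    rw [add_zero] at h
    rw [h.2, hp.2]
    exact ⟨h.1, rfl⟩

theorem uu_ne : uu k ≠ 0 := by
  intro h
  have h1 : cf (uu k) 1 = 0 := by
    rw [h]
    rfl
  have h2 : cf (uu k) 1 = 1 := by
    show cf (sg 1 (1 : k)) 1 = 1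
    rw [cf_sg, if_pos rfl]
  rw [h2] at h1
  exact one_ne_zero h1

theorem uu_inv : sg (-1) (1 : k) = (uu k)⁻¹ := by
  apply eq_inv_of_mul_eq_one_left
  show sg (-1) (1 : k) * sg 1 1 = 1
  rw [sg_mul_sg]
  norm_num
  exact sg_zero_one

theorem uu_inv2 : sg (-2) (1 : k) = (uu k ^ 2)⁻¹ := by
  apply eq_inv_of_mul_eq_one_left
  rw [pow_two]
  show sg (-2) (1 : k) * (sg 1 1 * sg 1 1) = 1
  rw [sg_mul_sg, sg_mul_sg]
  norm_num
  exact sg_zero_one

end Hahn

section Aff

variable {k : Type} [Field k]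

theorem ae {σ : Type} (f : σ → k) (P : MvPolynomial σ k) : aeval f P = eval f P := by
  rw [← coe_aeval_eq_eval]
  rfl

theorem aeval_gU {L : Type} [CommRing L] [Algebra k L] (G : MvPolynomial (Fin 3) k)
    (u0 u1 u2 : Fin 3 → k) (X' Y' : L) :
    aeval ![X', Y'] (gU G u0 u1 u2) = aeval (pa u0 u1 u2 X' Y') G := by
  have : (aeval ![X', Y'] : MvPolynomial (Fin 2) k →ₐ[k] L).comp
      (aeval (pa u0 u1 u2 (X 0) (X 1))) = aeval (pa u0 u1 u2 X' Y') := by
    ext i
    simp [pa]
  exact congrArg (fun f : MvPolynomial (Fin 3) k →ₐ[k] L => f G) this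

/-- Cramer -/
theorem cram {L : Type} [CommRing L] [Algebra k L] (u0 u1 u2 : Fin 3 → k) (X' Y' z : L)
    (a : Fin 3 → k) (h : ∀ i, pa u0 u1 u2 X' Y' i = z * algebraMap k L (a i)) :
    z * algebraMap k L (dt a u1 u2) = algebraMap k L (dt u0 u1 u2) ∧
    z * algebraMap k L (dt u0 a u2) = X' * algebraMap k L (dt u0 u1 u2) := by
  have h0 := h 0
  have h1 := h 1
  have h2 := h 2
  simp only [pa] at h0 h1 h2
  constructor
  · simp only [dt, dp, cr, Fin.sum_univ_three, map_add, map_mul, map_sub]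
    simp only [show (0 : Fin 3) + 1 = 1 from rfl, show (0 : Fin 3) + 2 = 2 from rfl,
      show (1 : Fin 3) + 1 = 2 from rfl, show (1 : Fin 3) + 2 = 0 from rfl,
      show (2 : Fin 3) + 1 = 0 from rfl, show (2 : Fin 3) + 2 = 1 from rfl]
    linear_combination (algebraMap k L (u1 2) * algebraMap k L (u2 1) -
        algebraMap k L (u1 1) * algebraMap k L (u2 2)) * h0 +
      (algebraMap k L (u1 0) * algebraMap k L (u2 2) -
        algebraMap k L (u1 2) * algebraMap k L (u2 0)) * h1 +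
      (algebraMap k L (u1 1) * algebraMap k L (u2 0) -
        algebraMap k L (u1 0) * algebraMap k L (u2 1)) * h2
  · simp only [dt, dp, cr, Fin.sum_univ_three, map_add, map_mul, map_sub]
    simp only [show (0 : Fin 3) + 1 = 1 from rfl, show (0 : Fin 3) + 2 = 2 from rfl,
      show (1 : Fin 3) + 1 = 2 from rfl, show (1 : Fin 3) + 2 = 0 from rfl,
      show (2 : Fin 3) + 1 = 0 from rfl, show (2 : Fin 3) + 2 = 1 from rfl]
    linear_combination (algebraMap k L (u2 2) * algebraMap k L (u0 1) -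
        algebraMap k L (u2 1) * algebraMap k L (u0 2)) * h0 +
      (algebraMap k L (u2 0) * algebraMap k L (u0 2) -
        algebraMap k L (u2 2) * algebraMap k L (u0 0)) * h1 +
      (algebraMap k L (u2 1) * algebraMap k L (u0 0) -
        algebraMap k L (u2 0) * algebraMap k L (u0 1)) * h2

end Aff

end Pool.Agent.H78.SM.S

namespace Pool.Agent.H78.SM

open MvPolynomial SC Pool.Agent.H27.LV Pool.Agent.H84.SM Pool.Agent.H78.SM.S
open Pool.Agent.H92.OD (HS cf sg uu Lat geO IsO DF DD cf_mul_low cf_add geO_add geO_mul cf_sg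
  sg_mul_sg sg_zero_one algebraMap_HS cf_sum hs_ext geO_sg DF_uu exists_IsO)

theorem pf_BAS (hIFT : T_IFT) (hCGE : T_CGE) (hCPC : T_CPC) (hAFE : T_AFE) : T_BAS := by
  intro k _ _ _ G d α A b hd hS hI hC hα u0 u1 u2 hΔ hu0 hu2
  have hpa0 : pa u0 u1 u2 (0 : k) 0 = u0 := by
    funext i
    simp [pa]
  -- the implicit function
  have hg0 : eval ![0, 0] (gU G u0 u1 u2) = 0 := by
    have := aeval_gU (L := k) G u0 u1 u2 0 0
    rw [hpa0, ae, ae] at this
    rw [this]
    exact hu0
  have hg1 : eval ![0, 0] (pderiv 1 (gU G u0 u1 u2)) ≠ 0 := by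
    have h1 : pderiv 1 (gU G u0 u1 u2) = ∑ i, gU (pderiv i G) u0 u1 u2 * C (u2 i) := by
      rw [gU, chain (pderiv 1)]
      refine Finset.sum_congr rfl fun i _ => ?_
      congr 1
      simp [pa, pderiv_X, algebraMap_eq]
    rw [h1, map_sum]
    have h2 : ∀ i, eval ![0, 0] (gU (pderiv i G) u0 u1 u2 * C (u2 i)) =
        gr G u0 i * u2 i := by
      intro i
      rw [map_mul, eval_C]
      have := aeval_gU (L := k) (pderiv i G) u0 u1 u2 0 0
      rw [hpa0, ae, ae] at this
      rw [this, gr, ae]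
    rw [Finset.sum_congr rfl fun i _ => h2 i]
    exact hu2
  obtain ⟨φ, hφ1, hφ2, hφ3, hφ4⟩ := hIFT k _ hg0 hg1
  have hu : DD k (uu k) = uu k := DF_uu
  have hcu : cf (uu k) 0 = 0 := by
    show cf (sg 1 (1 : k)) 0 = 0
    rw [cf_sg, if_neg (by norm_num)]
  have hcφ : cf φ 0 = 0 := hφ2 0 (by norm_num)
  have hguu : geO 0 (uu k) := Pool.Agent.H92.OD.geO_mono (geO_sg 1 1) (by norm_num)
  have hgφ : geO 0 φ := Pool.Agent.H92.OD.geO_mono hφ2 (by norm_num)
  have hlu : Lat 1 (uu k) := by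
    have := lat_sg (k := k) 1 1
    rwa [Int.cast_one] at this
  set c : Fin 3 → HS k := pa u0 u1 u2 (uu k) φ with hc
  have hval : ∀ P : MvPolynomial (Fin 3) k, cf (aeval c P) 0 = eval u0 P := by
    intro P
    have h1 := (low_aeval (y := ![uu k, φ]) (by
      intro i
      fin_cases i
      · exact hguu
      · exact hgφ) (gU P u0 u1 u2)).2
    rw [aeval_gU] at h1
    rw [h1]
    have h2 : (fun i => cf (![uu k, φ] i) 0) = ![0, 0] := by
      funext i
      fin_cases i
      · exact hcu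
      · exact hcφ
    rw [h2]
    have := aeval_gU (L := k) P u0 u1 u2 0 0
    rw [hpa0, ae, ae] at this
    exact this
  have hGc : aeval c G = 0 := by
    rw [aeval_gU] at hφ3
    exact hφ3
  have hgr : ∃ l, gr G c l ≠ 0 := by
    by_contra hcon
    push Not at hcon
    apply hu2
    rw [dp]
    refine Finset.sum_eq_zero fun i _ => ?_
    have h1 := hval (pderiv i G)
    have h2 := hcon i
    rw [gr] at h2
    rw [h2] at h1
    rw [gr, ae, ← h1]
    simp
  have heq := hCGE k (HS k) (DD k) G d α A b c hS.1 (by omega) hC hGc hgr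
  have hafe := hAFE k (HS k) (DD k) α A b u0 u1 u2 c 1 (uu k) φ hC.hA hC.hb hC.inv one_ne_zero
    uu_ne hu (fun i => by rw [one_mul])
  rw [heq, one_pow, one_mul] at hafe
  have hsol := (mul_eq_zero.mp hafe.symm).resolve_left (pow_ne_zero 3 uu_ne)
  have hAc : aeval c A ≠ 0 := by
    intro hAc
    have hGA : ¬ G ∣ A := by
      intro hGA
      have hA0 := hC.ne
      have h1 := totalDegree_le_of_dvd_of_isDomain hGA hA0
      have hG0 : G ≠ 0 := hI.ne_zero
      rw [hS.1.totalDegree hG0, hC.hA.totalDegree hA0] at h1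
      omega
    obtain ⟨z, a, hza⟩ := hCPC k (HS k) G A d α hS.1 hC.hA hI hGA c hGc hAc
    obtain ⟨e1, e2⟩ := cram u0 u1 u2 (uu k) φ z a hza
    have hΔ' : algebraMap k (HS k) (dt u0 u1 u2) ≠ 0 := by
      rw [Ne, map_eq_zero]
      exact hΔ
    have ha1 : algebraMap k (HS k) (dt a u1 u2) ≠ 0 := by
      intro h
      rw [h, mul_zero] at e1
      exact hΔ' e1.symm
    have e3 : uu k = algebraMap k (HS k) (dt u0 a u2 / dt a u1 u2) := by
      rw [map_div₀, eq_div_iff ha1]
      apply mul_right_cancel₀ hΔ'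
      rw [mul_right_comm, ← e2, ← e1]
      ring
    have e4 : cf (uu k) 0 = dt u0 a u2 / dt a u1 u2 := by
      rw [e3, cf_const]
    rw [hcu] at e4
    rw [← e4, map_zero] at e3
    exact uu_ne e3
  have haU : aeval ![uu k, φ] (aU A u0 u1 u2) = algebraMap k (HS k) (dt u0 u1 u2) * aeval c A := by
    rw [aU, map_mul, aeval_gU, algHom_C]
  have haU0 : aeval ![uu k, φ] (aU A u0 u1 u2) ≠ 0 := by
    rw [haU]
    refine mul_ne_zero ?_ hAc
    rw [Ne, map_eq_zero]
    exact hΔ
  obtain ⟨r, hr⟩ := exists_IsO haU0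
  have hlow := low_aeval (y := ![uu k, φ]) (by
      intro i
      fin_cases i
      · exact hguu
      · exact hgφ) (aU A u0 u1 u2)
  have hlat := lat_aeval (y := ![uu k, φ]) (by
      intro i
      fin_cases i
      · exact hlu
      · exact hφ1) (aU A u0 u1 u2)
  obtain ⟨m, hm⟩ := hlat r hr.1
  rw [Nat.cast_one, mul_one] at hm
  have hr0 : 0 ≤ r := by
    by_contra hneg
    exact hr.1 (hlow.1 r (not_le.mp hneg))
  have hm0 : 0 ≤ m := by
    rw [hm] at hr0
    exact_mod_cast hr0
  obtain ⟨a, rfl⟩ := Int.eq_ofNat_of_zero_le hm0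
  have hra : r = (a : ℚ) := by
    rw [hm]
    norm_cast
  rw [hra] at hr
  have hcf0 : cf (aeval ![uu k, φ] (aU A u0 u1 u2)) 0 = dt u0 u1 u2 * eval u0 A := by
    have h1 := cf_mul_low (x := algebraMap k (HS k) (dt u0 u1 u2)) (y := aeval c A)
      (r := 0) (s := 0) (geO_sg 0 _) (by
        have := (low_aeval (y := ![uu k, φ]) (by
          intro i
          fin_cases i
          · exact hguu
          · exact hgφ) (gU A u0 u1 u2)).1
        rw [aeval_gU] at this
        exact this)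
    rw [add_zero] at h1
    rw [haU, h1.2, cf_const, hval]
  refine ⟨φ, a, ⟨hφ1, hφ2, ?_, hr⟩, ?_, ?_, hφ4⟩
  · show aeval ![uu k, φ] (aU A u0 u1 u2) * (sg (-2) 1 * (DF (DF φ) - DF φ)) +
      aeval ![uu k, φ, sg (-1) 1 * DF φ] (bU b u0 u1 u2) = 0
    rw [uu_inv, uu_inv2, ← hsol]
    have e1 : (uu k ^ 2)⁻¹ * (DF (DF φ) - DF φ) = (DD k (DD k φ) - DD k φ) / uu k ^ 2 := by
      rw [div_eq_mul_inv, mul_comm]
      rfl
    have e2 : (uu k)⁻¹ * DF φ = DD k φ / uu k := by
      rw [div_eq_mul_inv, mul_comm]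
      rfl
    rw [e1, e2]
  · intro hA0
    by_contra hne
    have h1 := hr.2 0 (by
      have : 0 < a := Nat.pos_of_ne_zero hne
      exact_mod_cast this)
    rw [hcf0] at h1
    exact mul_ne_zero hΔ hA0 h1
  · intro hA0
    by_contra hlt
    have ha0 : a = 0 := by omega
    subst ha0
    apply hr.1
    rw [Nat.cast_zero, hcf0, hA0, mul_zero]

end Pool.Agent.H78.SM
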