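import Pool.Agent.H84.SM.Targets
import Mathlib.RingTheory.MvPolynomial.EulerIdentity

set_option autoImplicit false

namespace Pool.Agent.H78.SM.B

open MvPolynomial SC Pool.Agent.H27.LV Pool.Agent.H84.SM

section

variable {k : Type} [Field k]

/-- Taylor expansion along `y ↦ y + η x` -/
noncomputable def tay {L : Type} [CommRing L] [Algebra k L] (x y : Fin 3 → L) :
    A2 k →ₐ[k] Polynomial L :=
  aeval (Sum.elim (fun i => Polynomial.C (x i))
    (fun i => Polynomial.C (y i) + Polynomial.X * Polynomial.C (x i)))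

theorem tay_eval {L : Type} [CommRing L] [Algebra k L] (x y : Fin 3 → L) (η : L) (c : A2 k) :
    (tay x y c).eval η = aeval (Sum.elim x (fun i => y i + η * x i)) c := by
  induction c using MvPolynomial.induction_on with
  | C a =>
    simp only [tay, algHom_C]
    rw [IsScalarTower.algebraMap_apply k L (Polynomial L)]
    simp
  | add p q hp hq => simp only [map_add, Polynomial.eval_add, hp, hq]
  | mul_X p s hp =>
    rw [map_mul, map_mul, Polynomial.eval_mul, hp]
    congr 1
    rcases s with i | i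
    · simp [tay]
    · simp [tay]
      ring

theorem tay_der {L : Type} [CommRing L] [Algebra k L] (x y : Fin 3 → L) (c : A2 k) :
    Polynomial.derivative (tay x y c) = tay x y (dv c) := by
  induction c using MvPolynomial.induction_on with
  | C a =>
    simp only [tay, algHom_C]
    rw [IsScalarTower.algebraMap_apply k L (Polynomial L)]
    have : dv (k := k) (C a) = 0 := by
      exact dv.map_algebraMap a
    rw [this, map_zero]
    simp
  | add p q hp hq => simp only [map_add, hp, hq]
  | mul_X p s hp =>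
    have h1 : Polynomial.derivative (tay x y (X s : A2 k)) = tay x y (dv (X s : A2 k)) := by
      rcases s with i | i
      · simp [tay, dv, mkDerivation_X]
      · simp [tay, dv, mkDerivation_X]
    rw [map_mul, Polynomial.derivative_mul, hp, h1, Derivation.leibniz, map_add, smul_eq_mul,
      smul_eq_mul, map_mul, map_mul]
    ring

theorem inv_shift {L : Type} [CommRing L] [IsDomain L] [CharZero L] [Algebra k L]
    (x y : Fin 3 → L) (η : L) {c : A2 k} (hc : dv c = 0) :
    aeval (Sum.elim x (fun i => y i + η * x i)) c = aeval (Sum.elim x y) c := by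
  have h := tay_der x y c
  rw [hc, map_zero] at h
  have h2 := Polynomial.derivative_eq_zero.mp h
  obtain ⟨a, ha⟩ := Polynomial.natDegree_eq_zero.mp h2
  have e1 := tay_eval x y η c
  have e2 := tay_eval x y 0 c
  rw [← ha, Polynomial.eval_C] at e1 e2
  rw [← e1, e2]
  congr 2
  funext s
  rcases s with i | i
  · simp
  · simp

theorem gA_inj :
    Function.Injective (aeval (xa (k := k)) : MvPolynomial (Fin 3) k →ₐ[k] A2 k) := by
  have : (aeval (xa (k := k)) : MvPolynomial (Fin 3) k →ₐ[k] A2 k) =
      rename (R := k) (Sum.inl : Fin 3 → Fin 3 ⊕ Fin 3) := by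
    ext i
    simp [xa]
  rw [this]
  exact rename_injective _ Sum.inl_injective

theorem G_ne {G : MvPolynomial (Fin 3) k} {d : ℕ} (hS : Smooth G d) : G ≠ 0 := by
  rintro rfl
  have := congrFun (hS.2 (Pi.single 0 1) (by simp)) 0
  simp at this

theorem gA_ne {G : MvPolynomial (Fin 3) k} {d : ℕ} (hS : Smooth G d) : gA G ≠ 0 := by
  intro h
  apply G_ne hS
  apply gA_inj (k := k)
  rw [map_zero]
  exact h

theorem gF_ne {G : MvPolynomial (Fin 3) k} {d : ℕ} (hS : Smooth G d) : gF G ≠ 0 := by
  rw [gF]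
  intro h
  rw [map_eq_zero_iff _ (IsFractionRing.injective (A2 k) (F2 k))] at h
  exact gA_ne hS h

/-- the forms in `x` do not change -/
theorem bm_x (G : MvPolynomial (Fin 3) k) (d : ℕ) (P : MvPolynomial (Fin 3) k) :
    bm G d (aeval (xa (k := k)) P) = algebraMap (A2 k) (F2 k) (aeval (xa (k := k)) P) := by
  have : (bm G d).comp (aeval (xa (k := k))) =
      (IsScalarTower.toAlgHom k (A2 k) (F2 k)).comp (aeval (xa (k := k))) := by
    ext i
    simp [bm, xa]
  exact congrArg (fun f : MvPolynomial (Fin 3) k →ₐ[k] F2 k => f P) this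

theorem euler {G : MvPolynomial (Fin 3) k} {d : ℕ} (hG : G.IsHomogeneous d) :
    ∑ i, gr G (xa (k := k)) i * xa i = (d : A2 k) * gA G := by
  have h := congrArg (aeval (xa (k := k))) hG.sum_X_mul_pderiv
  rw [map_sum] at h
  simp only [map_mul, aeval_X, nsmul_eq_mul, map_natCast] at h
  rw [gA, ← h]
  refine Finset.sum_congr rfl fun i _ => ?_
  rw [gr, mul_comm]

theorem bm_f [CharZero k] {G : MvPolynomial (Fin 3) k} {d : ℕ} (hd : d ≠ 0) (hS : Smooth G d) :
    bm G d (fA G) = 0 := by
  have : CharZero (F2 k) := charZero_of_injective_algebraMap (algebraMap k (F2 k)).injective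
  have hd' : (d : F2 k) ≠ 0 := Nat.cast_ne_zero.mpr hd
  have hg := gF_ne hS
  have e1 : ∀ i, bm G d (gr G (xa (k := k)) i * ya i) =
      algebraMap (A2 k) (F2 k) (gr G xa i * ya i) -
        algebraMap (A2 k) (F2 k) (fA G) / ((d : F2 k) * gF G) *
          algebraMap (A2 k) (F2 k) (gr G xa i * xa i) := by
    intro i
    rw [map_mul, gr, bm_x]
    have : bm G d (ya (k := k) i) = pr G d i := by simp [bm, ya]
    rw [this, pr, map_mul, map_mul, map_mul]
    ring
  rw [fA, dp, map_sum]
  simp only [e1]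
  rw [Finset.sum_sub_distrib, ← Finset.mul_sum, ← map_sum, ← map_sum, euler hS.1]
  change algebraMap (A2 k) (F2 k) (fA G) - algebraMap (A2 k) (F2 k) (fA G) / ((d : F2 k) * gF G) *
    algebraMap (A2 k) (F2 k) ((d : A2 k) * gA G) = 0
  rw [map_mul, map_natCast]
  change _ - _ / ((d : F2 k) * gF G) * ((d : F2 k) * gF G) = 0
  rw [div_mul_cancel₀ _ (mul_ne_zero hd' hg), sub_self]

theorem key [CharZero k] {G : MvPolynomial (Fin 3) k} {d : ℕ} (hd : d ≠ 0) (hS : Smooth G d)
    (b : A2 k) : ∃ (r : ℕ) (h : A2 k),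
      gF G ^ r * (algebraMap (A2 k) (F2 k) b - bm G d b) =
        algebraMap (A2 k) (F2 k) (fA G * h) := by
  have : CharZero (F2 k) := charZero_of_injective_algebraMap (algebraMap k (F2 k)).injective
  have hd' : (d : F2 k) ≠ 0 := Nat.cast_ne_zero.mpr hd
  have hdk : (d : k) ≠ 0 := Nat.cast_ne_zero.mpr hd
  have hg := gF_ne hS
  induction b using MvPolynomial.induction_on with
  | C a =>
    refine ⟨0, 0, ?_⟩
    rw [algHom_C, ← algebraMap_eq, ← IsScalarTower.algebraMap_apply]
    simp
  | add p q hp hq =>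
    obtain ⟨r, h, e⟩ := hp
    obtain ⟨r', h', e'⟩ := hq
    refine ⟨r + r', gA G ^ r' * h + gA G ^ r * h', ?_⟩
    have : gF G ^ (r + r') * (algebraMap (A2 k) (F2 k) (p + q) - bm G d (p + q)) =
        gF G ^ r' * (gF G ^ r * (algebraMap (A2 k) (F2 k) p - bm G d p)) +
          gF G ^ r * (gF G ^ r' * (algebraMap (A2 k) (F2 k) q - bm G d q)) := by
      rw [map_add, map_add, pow_add]
      ring
    rw [this, e, e', gF]
    simp only [map_mul, map_add, map_pow]
    ring
  | mul_X p s hp =>
    obtain ⟨r, h, e⟩ := hp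
    have hX : ∃ (r : ℕ) (h : A2 k),
        gF G ^ r * (algebraMap (A2 k) (F2 k) (X s) - bm G d (X s)) =
          algebraMap (A2 k) (F2 k) (fA G * h) := by
      rcases s with i | i
      · refine ⟨0, 0, ?_⟩
        simp [bm, xa]
      · refine ⟨1, C ((d : k)⁻¹) * xa i, ?_⟩
        have e1 : bm G d (X (Sum.inr i)) = pr G d i := by simp [bm]
        have e2 : algebraMap (A2 k) (F2 k) (C ((d : k)⁻¹)) = (d : F2 k)⁻¹ := by
          rw [← algebraMap_eq, ← IsScalarTower.algebraMap_apply, map_inv₀, map_natCast]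
        rw [e1, pr, ya, map_mul, map_mul, map_mul, e2, pow_one, sub_sub_cancel]
        field_simp
    obtain ⟨r', h', e'⟩ := hX
    refine ⟨r + r', gA G ^ r * p * h' + h * (gA G ^ r' * X s - fA G * h'), ?_⟩
    have e3 : gF G ^ r' * bm G d (X s) =
        algebraMap (A2 k) (F2 k) (gA G ^ r' * X s - fA G * h') := by
      have : gF G ^ r' * bm G d (X s) = gF G ^ r' * algebraMap (A2 k) (F2 k) (X s) -
          gF G ^ r' * (algebraMap (A2 k) (F2 k) (X s) - bm G d (X s)) := by ring
      rw [this, e', gF]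
      simp only [map_mul, map_sub, map_pow]
    have : gF G ^ (r + r') * (algebraMap (A2 k) (F2 k) (p * X s) - bm G d (p * X s)) =
        gF G ^ r * algebraMap (A2 k) (F2 k) p *
          (gF G ^ r' * (algebraMap (A2 k) (F2 k) (X s) - bm G d (X s))) +
        gF G ^ r * (algebraMap (A2 k) (F2 k) p - bm G d p) * (gF G ^ r' * bm G d (X s)) := by
      rw [map_mul, map_mul, pow_add]
      ring
    rw [this, e, e', e3, gF]
    simp only [map_mul, map_add, map_sub, map_pow]
    ring

end

end Pool.Agent.H78.SM.B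

namespace Pool.Agent.H78.SM

open MvPolynomial SC Pool.Agent.H27.LV Pool.Agent.H84.SM Pool.Agent.H78.SM.B

theorem pf_BMF (hRSB : T_RSB) : T_BMF := by
  intro k _ _ _ G d hd hS
  have hd0 : d ≠ 0 := by omega
  have : CharZero (F2 k) := charZero_of_injective_algebraMap (algebraMap k (F2 k)).injective
  refine ⟨fun b => ⟨fun hb => ?_, ?_⟩, ?_, fun c hc => ?_⟩
  · obtain ⟨r, h, e⟩ := key hd0 hS b
    rw [hb, sub_zero, gF, ← map_pow, ← map_mul] at e
    have e2 := IsFractionRing.injective (A2 k) (F2 k) e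
    have hp := (hRSB k G d hd hS).1
    have h3 : fA G ∣ gA G ^ r * b := ⟨h, e2⟩
    refine (hp.dvd_or_dvd h3).resolve_left fun h4 => ?_
    obtain ⟨c, hc⟩ := hp.dvd_of_dvd_pow h4
    have := congrArg (aeval (Sum.elim (xa (k := k)) 0) : A2 k → A2 k) hc
    have e1 : aeval (Sum.elim (xa (k := k)) 0) (fA G) = 0 := by
      simp [fA, dp, ya]
    rw [map_mul, e1, zero_mul] at this
    apply gA_ne hS
    rw [← this]
    have h5 : (aeval (Sum.elim (xa (k := k)) 0) : A2 k →ₐ[k] A2 k).comp (aeval (xa (k := k))) =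
        aeval (xa (k := k)) := by
      ext i
      simp [xa]
    exact (congrArg (fun f : MvPolynomial (Fin 3) k →ₐ[k] A2 k => f G) h5).symm
  · rintro ⟨c, rfl⟩
    rw [map_mul, bm_f hd0 hS, zero_mul]
  · exact bm_x G d G
  · have h1 := inv_shift (k := k) (fun i => algebraMap (A2 k) (F2 k) (xa i))
      (fun i => algebraMap (A2 k) (F2 k) (ya i))
      (- (algebraMap (A2 k) (F2 k) (fA G) / ((d : F2 k) * gF G))) hc
    have h2 : bm G d c = aeval (Sum.elim (fun i => algebraMap (A2 k) (F2 k) (xa i)) (fun i =>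
        algebraMap (A2 k) (F2 k) (ya i) +
          - (algebraMap (A2 k) (F2 k) (fA G) / ((d : F2 k) * gF G)) *
            algebraMap (A2 k) (F2 k) (xa i))) c := by
      rw [bm]
      congr 2
      funext s
      rcases s with i | i
      · rfl
      · simp only [Sum.elim_inr, pr, map_mul]
        ring
    rw [h2, h1]
    have h3 : (aeval (Sum.elim (fun i => algebraMap (A2 k) (F2 k) (xa i))
        (fun i => algebraMap (A2 k) (F2 k) (ya i))) : A2 k →ₐ[k] F2 k) =
        IsScalarTower.toAlgHom k (A2 k) (F2 k) := by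
      apply MvPolynomial.algHom_ext
      intro s
      rcases s with i | i
      · simp [xa]
      · simp [ya]
    exact congrArg (fun f : A2 k →ₐ[k] F2 k => f c) h3

end Pool.Agent.H78.SM
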