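import Pool.Agent.H84.SM.Targets
import Mathlib.RingTheory.MvPolynomial.IrreducibleQuadratic

set_option autoImplicit false

namespace Pool.Agent.H78.SM

open MvPolynomial SC Pool.Agent.H27.LV Pool.Agent.H84.SM

section

variable {k : Type} [Field k]

/-- polynomials in `x`, `y` as polynomials in `y` over polynomials in `x` -/
noncomputable def e6 : A2 k ≃ₐ[k] MvPolynomial (Fin 3) (MvPolynomial (Fin 3) k) :=
  (renameEquiv k (Equiv.sumComm (Fin 3) (Fin 3))).trans (sumAlgEquiv k (Fin 3) (Fin 3))

theorem e6_inl (i : Fin 3) : e6 (k := k) (X (Sum.inl i)) = C (X i) := by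
  simp [e6]

theorem e6_inr (i : Fin 3) : e6 (k := k) (X (Sum.inr i)) = X i := by
  simp [e6]

theorem e6_x (P : MvPolynomial (Fin 3) k) : e6 (aeval (xa (k := k)) P) = C P := by
  have h : (e6 (k := k)).toAlgHom.comp (aeval (xa (k := k))) =
      IsScalarTower.toAlgHom k (MvPolynomial (Fin 3) k)
        (MvPolynomial (Fin 3) (MvPolynomial (Fin 3) k)) := by
    ext i : 1
    simp [xa, e6_inl]
  have := congrArg (fun f : MvPolynomial (Fin 3) k →ₐ[k] _ => f P) h
  simpa using this

theorem e6_f (G : MvPolynomial (Fin 3) k) :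
    e6 (fA G) = sumSMulX (Finsupp.equivFunOnFinite.symm (fun i => pderiv i G)) := by
  rw [sumSMulX, Finsupp.linearCombination_apply, Finsupp.sum_fintype _ _ (by simp)]
  simp only [fA, dp, gr, map_sum, map_mul, e6_x, ya, e6_inr]
  refine Finset.sum_congr rfl fun i _ => ?_
  rw [Finsupp.equivFunOnFinite_symm_apply_apply, smul_eq_C_mul]

end

section

variable {k : Type} [Field k] [IsAlgClosed k]

/-- a polynomial without zeros outside of the origin is constant on lines -/
theorem line {r : MvPolynomial (Fin 3) k} (hr : ∀ a : Fin 3 → k, eval a r = 0 → a = 0)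
    (a b : Fin 3 → k) (hab : ∀ t : k, a + t • b ≠ 0) : eval a r = eval (a + b) r := by
  set p : Polynomial k := aeval (fun i => Polynomial.C (a i) + Polynomial.X * Polynomial.C (b i)) r
    with hp
  have hev : ∀ t : k, p.eval t = eval (a + t • b) r := by
    intro t
    have : (Polynomial.aeval t).comp
        (aeval (fun i => Polynomial.C (a i) + Polynomial.X * Polynomial.C (b i)) :
          MvPolynomial (Fin 3) k →ₐ[k] Polynomial k) = aeval (a + t • b) := by
      ext i
      simp
      ring
    have h2 := congrArg (fun f : MvPolynomial (Fin 3) k →ₐ[k] k => f r) this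
    simp only [AlgHom.comp_apply] at h2
    rw [← hp, Polynomial.coe_aeval_eq_eval, ← MvPolynomial.coe_aeval_eq_eval] at *
    exact h2
  have hd : p.degree = 0 := by
    by_contra hd
    obtain ⟨t, ht⟩ := IsAlgClosed.exists_root p hd
    rw [Polynomial.IsRoot.def, hev] at ht
    exact hab t (hr _ ht)
  rw [Polynomial.eq_C_of_degree_eq_zero hd] at hev
  have h0 := hev 0
  have h1 := hev 1
  simp only [Polynomial.eval_C, zero_smul, add_zero, one_smul] at h0 h1
  rw [← h0, ← h1]

/-- a polynomial in three variables without zeros outside of the origin is a unit -/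
theorem unit_of_nz [CharZero k] {r : MvPolynomial (Fin 3) k}
    (hr : ∀ a : Fin 3 → k, eval a r = 0 → a = 0) : IsUnit r := by
  set c := eval (Pi.single 0 1 : Fin 3 → k) r with hc
  have hc0 : c ≠ 0 := by
    intro h
    have := hr _ (hc ▸ h)
    have := congrFun this 0
    simp at this
  have key : ∀ a b : Fin 3 → k, (∀ s t : k, s • a + t • b = 0 → s = 0 ∧ t = 0) →
      eval a r = eval b r := by
    intro a b hab
    rw [line hr a b, line hr b a, add_comm]
    · intro t h
      have := hab t 1 (by rw [← h, add_comm, one_smul])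
      exact one_ne_zero this.2
    · intro t h
      have := hab 1 t (by rw [← h, one_smul])
      exact one_ne_zero this.1
  have h1 : eval (Pi.single 1 1 : Fin 3 → k) r = c := by
    rw [hc]
    refine key _ _ fun s t h => ?_
    have h0 := congrFun h 0
    have h1 := congrFun h 1
    simp at h0 h1
    exact ⟨h1, h0⟩
  have hall : ∀ a : Fin 3 → k, a ≠ 0 → eval a r = c := by
    intro a ha
    by_cases h2 : a 1 = 0 ∧ a 2 = 0
    · have ha0 : a 0 ≠ 0 := by
        intro h
        apply ha
        ext i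
        fin_cases i
        · exact h
        · exact h2.1
        · exact h2.2
      rw [← h1]
      refine key _ _ fun s t h => ?_
      have h0 := congrFun h 0
      have h1 := congrFun h 1
      simp [h2.1] at h0 h1
      exact ⟨h0.resolve_right ha0, h1⟩
    · rw [hc]
      refine key _ _ fun s t h => ?_
      have e0 := congrFun h 0
      have e1 := congrFun h 1
      have e2 := congrFun h 2
      simp at e0 e1 e2
      have hs : s = 0 := by
        by_contra hs
        exact h2 ⟨e1.resolve_left hs, e2.resolve_left hs⟩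
      subst hs
      simpa using e0
  have hX : X 0 * r = X 0 * C c := by
    apply MvPolynomial.funext
    intro a
    by_cases ha : a = 0
    · subst ha
      simp
    · simp [hall a ha]
  have : r = C c := mul_left_cancel₀ (X_ne_zero 0) hX
  rw [this]
  exact (isUnit_iff_ne_zero.mpr hc0).map C

variable [CharZero k]

theorem prime_fA {G : MvPolynomial (Fin 3) k} {d : ℕ} (hS : Smooth G d) : Prime (fA G) := by
  have h : Irreducible (e6 (fA G)) := by
    rw [e6_f]
    apply irreducible_sumSMulX
    · rw [Finset.nonempty_iff_ne_empty]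
      intro h
      have h2 := hS.2 (Pi.single 0 1) (fun i => by
        have : (Finsupp.equivFunOnFinite.symm (fun i => pderiv i G)) i = 0 := by
          rw [← Finsupp.notMem_support_iff, h]
          simp
        rw [Finsupp.equivFunOnFinite_symm_apply_apply] at this
        rw [this, map_zero])
      have := congrFun h2 0
      simp at this
    · intro r hr
      apply unit_of_nz
      intro a ha
      apply hS.2 a
      intro i
      obtain ⟨s, hs⟩ := hr i
      rw [Finsupp.equivFunOnFinite_symm_apply_apply] at hs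
      rw [hs, map_mul, ha, zero_mul]
  have h2 : Irreducible (fA G) := (MulEquiv.irreducible_iff (e6 (k := k))).mp h
  exact h2.prime

omit [IsAlgClosed k] [CharZero k] in
/-- `fA G` does not divide `x 0` -/
theorem f_not_dvd (G : MvPolynomial (Fin 3) k) : ¬ fA G ∣ xa (k := k) 0 := by
  rintro ⟨h, hh⟩
  have := congrArg (aeval (Sum.elim (xa (k := k)) 0) : A2 k → A2 k) hh
  rw [map_mul] at this
  have e1 : aeval (Sum.elim (xa (k := k)) 0) (fA G) = 0 := by
    simp [fA, dp, ya]
  rw [e1, zero_mul] at this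
  simp [xa] at this

/-- the substitution `x 0 = 0` -/
noncomputable def ph : A2 k →ₐ[k] A2 k :=
  aeval (fun s => if s = Sum.inl 0 then 0 else X s)

omit [IsAlgClosed k] [CharZero k] in
theorem ph_sub (a : A2 k) : xa 0 ∣ a - ph a := by
  rw [← Ideal.mem_span_singleton, ← Ideal.Quotient.eq]
  have : (Ideal.Quotient.mkₐ k (Ideal.span {xa (k := k) 0})) =
      (Ideal.Quotient.mkₐ k (Ideal.span {xa (k := k) 0})).comp ph := by
    ext s
    by_cases hs : s = Sum.inl 0
    · subst hs
      simp only [ph, AlgHom.comp_apply, aeval_X, if_true, map_zero]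
      rw [Ideal.Quotient.mkₐ_eq_mk, Ideal.Quotient.eq_zero_iff_mem, Ideal.mem_span_singleton]
      exact dvd_refl _
    · simp [ph, hs]
  exact congrArg (fun f : A2 k →ₐ[k] _ => f a) this

omit [IsAlgClosed k] [CharZero k] in
theorem ph_x0 : ph (xa (k := k) 0) = 0 := by
  simp [ph, xa]

omit [IsAlgClosed k] [CharZero k] in
theorem ph_x1 : ph (xa (k := k) 1) = xa 1 := by
  simp [ph, xa]

omit [IsAlgClosed k] in
/-- `x 1` is regular modulo `fA G`, `x 0` -/
theorem reg1 {G : MvPolynomial (Fin 3) k} {d : ℕ} (hS : Smooth G d) {u v : A2 k}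
    (h : fA G ∣ xa 1 * u - xa 0 * v) : ∃ u', fA G ∣ u - xa 0 * u' := by
  obtain ⟨a, ha⟩ := h
  have h1 := congrArg ph ha
  rw [map_sub, map_mul, map_mul, ph_x0, ph_x1, zero_mul, sub_zero, map_mul] at h1
  have hp : Prime (xa (k := k) 1) := by
    rw [xa]
    exact MvPolynomial.X_prime
  have hn : ¬ xa (k := k) 1 ∣ ph (fA G) := by
    intro hd
    obtain ⟨i, hi⟩ : ∃ i, eval (Pi.single 2 1 : Fin 3 → k) (pderiv i G) ≠ 0 := by
      by_contra hc
      push Not at hc
      have := congrFun (hS.2 _ hc) 2
      simp at this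
    obtain ⟨b, hb⟩ := hd
    have := congrArg (eval (Sum.elim (Pi.single 2 1 : Fin 3 → k) (Pi.single i 1 : Fin 3 → k))) hb
    rw [map_mul] at this
    have e1 : eval (Sum.elim (Pi.single 2 1 : Fin 3 → k) (Pi.single i 1 : Fin 3 → k))
        (xa (k := k) 1) = 0 := by
      simp [xa]
    rw [e1, zero_mul] at this
    obtain ⟨c, hc⟩ := ph_sub (fA G)
    have e2 := congrArg (eval (Sum.elim (Pi.single 2 1 : Fin 3 → k)
      (Pi.single i 1 : Fin 3 → k))) hc
    have e3 : eval (Sum.elim (Pi.single 2 1 : Fin 3 → k) (Pi.single i 1 : Fin 3 → k))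
        (xa (k := k) 0) = 0 := by
      simp [xa]
    rw [map_sub, this, map_mul, e3, zero_mul, sub_zero] at e2
    have e4 : eval (Sum.elim (Pi.single 2 1 : Fin 3 → k) (Pi.single i 1 : Fin 3 → k)) (fA G) =
        eval (Pi.single 2 1 : Fin 3 → k) (pderiv i G) := by
      have e5 : ∀ P : MvPolynomial (Fin 3) k,
          eval (Sum.elim (Pi.single 2 1 : Fin 3 → k) (Pi.single i 1 : Fin 3 → k))
            (aeval (xa (k := k)) P) = eval (Pi.single 2 1 : Fin 3 → k) P := by
        intro P
        have : (aeval (Sum.elim (Pi.single 2 1 : Fin 3 → k) (Pi.single i 1 : Fin 3 → k)) :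
            A2 k →ₐ[k] k).comp (aeval (xa (k := k))) =
              (aeval (Pi.single 2 1 : Fin 3 → k) : MvPolynomial (Fin 3) k →ₐ[k] k) := by
          ext j
          simp [xa]
        have := congrArg (fun f : MvPolynomial (Fin 3) k →ₐ[k] k => f P) this
        simpa [MvPolynomial.coe_aeval_eq_eval] using this
      simp only [fA, dp, gr, map_sum, map_mul, e5, ya, eval_X, Sum.elim_inr]
      rw [Finset.sum_eq_single i]
      · simp
      · intro j _ hj
        rw [Pi.single_eq_of_ne hj, mul_zero]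
      · simp
    rw [e4] at e2
    exact hi e2
  have h2 : xa (k := k) 1 ∣ ph a := by
    have : xa (k := k) 1 ∣ ph (fA G) * ph a := ⟨ph u, h1.symm⟩
    exact (hp.dvd_or_dvd this).resolve_left hn
  obtain ⟨b, hb⟩ := h2
  rw [hb] at h1
  have h3 : ph u = ph (fA G) * b := by
    apply mul_left_cancel₀ hp.ne_zero
    rw [h1]
    ring
  obtain ⟨c, hc⟩ := ph_sub u
  obtain ⟨c', hc'⟩ := ph_sub (fA G)
  refine ⟨c - c' * b, b, ?_⟩
  have : u = ph u + xa 0 * c := by rw [← hc]; ring
  have h4 : ph (fA G) = fA G - xa 0 * c' := by rw [← hc']; ring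
  rw [this, h3, h4]
  ring

theorem regM {G : MvPolynomial (Fin 3) k} {d : ℕ} (hS : Smooth G d) (M : ℕ) : ∀ {u v : A2 k},
    fA G ∣ xa 1 ^ M * u - xa 0 * v → ∃ u', fA G ∣ u - xa 0 * u' := by
  induction M with
  | zero =>
    intro u v h
    exact ⟨v, by simpa using h⟩
  | succ M ih =>
    intro u v h
    have h1 : fA G ∣ xa 1 * (xa 1 ^ M * u) - xa 0 * v := by
      have : xa (k := k) 1 * (xa 1 ^ M * u) - xa 0 * v = xa 1 ^ (M + 1) * u - xa 0 * v := by ring
      rw [this]
      exact h
    obtain ⟨u', h'⟩ := reg1 hS h1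
    exact ih h'

theorem regN {G : MvPolynomial (Fin 3) k} {d : ℕ} (hS : Smooth G d) (M N : ℕ) : ∀ {u v : A2 k},
    fA G ∣ xa 1 ^ M * u - xa 0 ^ N * v → ∃ u', fA G ∣ u - xa 0 ^ N * u' := by
  induction N with
  | zero =>
    intro u v _
    exact ⟨u, by simp⟩
  | succ N ih =>
    intro u v h
    have h1 : fA G ∣ xa 1 ^ M * u - xa 0 ^ N * (xa 0 * v) := by
      have : xa (k := k) 1 ^ M * u - xa 0 ^ N * (xa 0 * v) =
          xa 1 ^ M * u - xa 0 ^ (N + 1) * v := by ring
      rw [this]
      exact h
    obtain ⟨u1, h2⟩ := ih h1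
    have h3 : fA G ∣ xa 0 ^ N * (xa 1 ^ M * u1 - xa 0 * v) := by
      have : xa (k := k) 0 ^ N * (xa 1 ^ M * u1 - xa 0 * v) =
          (xa 1 ^ M * u - xa 0 ^ (N + 1) * v) - xa 1 ^ M * (u - xa 0 ^ N * u1) := by ring
      rw [this]
      exact dvd_sub h (Dvd.dvd.mul_left h2 _)
    have hp := prime_fA hS
    have h4 : fA G ∣ xa 1 ^ M * u1 - xa 0 * v := by
      refine (hp.dvd_or_dvd h3).resolve_left fun h5 => ?_
      exact f_not_dvd G (hp.dvd_of_dvd_pow h5)
    obtain ⟨u2, h5⟩ := regM hS M h4
    refine ⟨u2, ?_⟩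
    have : u - xa (k := k) 0 ^ (N + 1) * u2 = (u - xa 0 ^ N * u1) +
        xa 0 ^ N * (u1 - xa 0 * u2) := by ring
    rw [this]
    exact dvd_add h2 (Dvd.dvd.mul_left h5 _)

end

theorem pf_RSB : T_RSB := by
  intro k _ _ _ G d _ hS
  exact ⟨prime_fA hS, fun N u v h => regN hS N N h⟩

end Pool.Agent.H78.SM
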