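import Pool.Agent.H84.SM.Targets

set_option autoImplicit false

namespace Pool.Agent.H78.SM.M

open MvPolynomial SC Pool.Agent.H27.LV Pool.Agent.H84.SM

section count

variable {ι : Type} [Fintype ι] [DecidableEq ι]

theorem card_degree (w : ℕ) :
    Nat.card {d : ι →₀ ℕ // d.degree = w} = (Fintype.card ι + w - 1).choose w := by
  have h1 := Finset.card_finsuppAntidiag_nat_eq_choose (s := (Finset.univ : Finset ι)) w
  rw [Finset.card_univ] at h1
  rw [← h1]
  apply Nat.subtype_card
  intro d
  rw [Finset.mem_finsuppAntidiag, Finsupp.degree_eq_sum]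
  simp

variable {K : Type} [Field K]

/-- forms of degree `w` -/
theorem finrank_homog [Nonempty ι] (w : ℕ) :
    Module.finrank K (homogeneousSubmodule ι K w) =
      (w + (Fintype.card ι - 1)).choose (Fintype.card ι - 1) := by
  classical
  have hcd : Nat.card {d : ι →₀ ℕ // d.degree = w} =
      (w + (Fintype.card ι - 1)).choose (Fintype.card ι - 1) := by
    rw [card_degree]
    have h : 0 < Fintype.card ι := Fintype.card_pos
    have h1 : Fintype.card ι + w - 1 = w + (Fintype.card ι - 1) := by omega
    rw [h1, Nat.choose_symm_add]
  rw [← hcd]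
  let A : Set (ι →₀ ℕ) := {d | d.degree = w}
  have hfin : A.Finite := (Finsupp.finite_of_degree_le w).subset fun d hd => le_of_eq hd
  have : Fintype A := hfin.fintype
  have h1 : homogeneousSubmodule ι K w =
      Submodule.span K (Set.range fun p : A => basisMonomials ι K p) := by
    have h2 : (Set.range fun p : A => basisMonomials ι K p) = basisMonomials ι K '' A := by
      ext x; simp
    rw [h2]
    ext v
    rw [Module.Basis.mem_span_image, mem_homogeneousSubmodule]
    constructor
    · intro h p hp
      rw [Finset.mem_coe, Finsupp.mem_support_iff] at hp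
      have h3 := h hp
      change p.degree = w
      rw [← h3, Finsupp.degree_eq_weight_one]
      rfl
    · intro h m hm
      have h4 : m ∈ A := by
        apply h
        rw [Finset.mem_coe, Finsupp.mem_support_iff]
        exact hm
      rw [← (show m.degree = w from h4), Finsupp.degree_eq_weight_one]
      rfl
  rw [h1, finrank_span_eq_card]
  · rw [← Nat.card_eq_fintype_card]
    rfl
  · exact (basisMonomials ι K).linearIndependent.comp _ Subtype.val_injective

omit [DecidableEq ι] in
theorem fin_homog (w : ℕ) : Module.Finite K (homogeneousSubmodule ι K w) :=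
  Module.Finite.iff_fg.mpr (homogeneousSubmodule_fg (R := K) (σ := ι) w)

end count

end Pool.Agent.H78.SM.M

namespace Pool.Agent.H78.SM

open MvPolynomial SC Pool.Agent.H27.LV Pool.Agent.H84.SM Pool.Agent.H78.SM.M

theorem pf_SDM : T_SDM := by
  intro k L _ _ _ G d c hG hG0 hc r
  rcases lt_or_ge r 0 with hr | hr
  · have h0 : SS (k := k) c r = ⊥ := by
      rw [SS, Submodule.span_eq_bot]
      rintro f ⟨r', φ, h, _, _⟩
      omega
    rw [h0, sdim, if_pos hr]
    exact ⟨inferInstance, by simp⟩
  · obtain ⟨n, rfl⟩ := Int.eq_ofNat_of_zero_le hr
    have hSS : SS (k := k) c (n : ℤ) =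
        (homogeneousSubmodule (Fin 3) k n).map (aeval c : MvPolynomial (Fin 3) k →ₐ[k] L).toLinearMap := by
      rw [SS]
      apply le_antisymm
      · rw [Submodule.span_le]
        rintro f ⟨r', φ, h, hφ, rfl⟩
        have : r' = n := by exact_mod_cast h
        subst this
        exact ⟨φ, hφ, rfl⟩
      · rintro f ⟨φ, hφ, rfl⟩
        exact Submodule.subset_span ⟨n, φ, rfl, hφ, rfl⟩
    have hf := fin_homog (ι := Fin 3) (K := k) n
    rw [hSS]
    refine ⟨inferInstance, ?_⟩
    rw [sdim, if_neg (not_lt.mpr hr), Int.toNat_natCast]
    have hn := finrank_homog (ι := Fin 3) (K := k) n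
    simp only [Fintype.card_fin, Nat.add_one_sub_one] at hn
    rcases lt_or_ge n d with hnd | hnd
    · have h1 : (n + 2 - d).choose 2 = 0 := Nat.choose_eq_zero_of_lt (by omega)
      rw [h1, Nat.sub_zero, ← hn]
      exact Submodule.finrank_map_le _ _
    · have hm := finrank_homog (ι := Fin 3) (K := k) (n - d)
      simp only [Fintype.card_fin, Nat.add_one_sub_one] at hm
      have h1 : n - d + 2 = n + 2 - d := by omega
      rw [h1] at hm
      rw [← hn, ← hm]
      have hf' := fin_homog (ι := Fin 3) (K := k) (n - d)
      -- the map restricted to the forms of degree n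
      set φ := (aeval c : MvPolynomial (Fin 3) k →ₐ[k] L).toLinearMap.domRestrict
        (homogeneousSubmodule (Fin 3) k n) with hφ
      have h2 := LinearMap.finrank_range_add_finrank_ker φ
      have h3 : LinearMap.range φ = (homogeneousSubmodule (Fin 3) k n).map
          (aeval c : MvPolynomial (Fin 3) k →ₐ[k] L).toLinearMap := by
        rw [hφ, LinearMap.range_domRestrict]
      rw [h3] at h2
      -- multiplication by G
      have hmul : ∀ ψ : homogeneousSubmodule (Fin 3) k (n - d),
          G * (ψ : MvPolynomial (Fin 3) k) ∈ homogeneousSubmodule (Fin 3) k n := by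
        intro ψ
        have := hG.mul ψ.2
        rw [show d + (n - d) = n by omega] at this
        exact this
      let μ : homogeneousSubmodule (Fin 3) k (n - d) →ₗ[k] LinearMap.ker φ :=
        { toFun := fun ψ => ⟨⟨G * ψ, hmul ψ⟩, by
            rw [LinearMap.mem_ker]
            show aeval c (G * (ψ : MvPolynomial (Fin 3) k)) = 0
            exact (hc _).mpr (dvd_mul_right _ _)⟩
          map_add' := fun a b => by
            apply Subtype.ext
            apply Subtype.ext
            show G * ((a : MvPolynomial (Fin 3) k) + b) = G * a + G * b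
            ring
          map_smul' := fun t a => by
            apply Subtype.ext
            apply Subtype.ext
            show G * (t • (a : MvPolynomial (Fin 3) k)) = t • (G * (a : MvPolynomial (Fin 3) k))
            rw [mul_smul_comm] }
      have hμ : Function.Injective μ := by
        intro a b h
        have h4 := congrArg (fun z : LinearMap.ker φ =>
          ((z : homogeneousSubmodule (Fin 3) k n) : MvPolynomial (Fin 3) k)) h
        apply Subtype.ext
        exact mul_left_cancel₀ hG0 h4
      have h5 := LinearMap.finrank_le_finrank_of_injective hμ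
      omega

end Pool.Agent.H78.SM
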