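import Pool.Agent.H20.SM.Targets
import Pool.Agent.H3.CV.GC

/-!
# Row CRT of the board sm: the squarefree ideals which divide `q` (helper78)
-/

set_option autoImplicit false

open NumberField NumberField.InfinitePlace Complex Filter Topology MeasureTheory

namespace Pool.Agent.H78.SM

open Pool.Agent.H28.RC Pool.Agent.H25.HK Pool.Agent.H37.CV Pool.Agent.H20.SM
open Pool.Agent.H3.CV (nm_mul nm_idS mem_pf idS_ne idS_dvd idS_le)

section

variable {F : Type} [Field F] [NumberField F]

lemma crt_q0 {q : ℕ} (hq : Sq F q) : q ≠ 0 := hq.1.ne_zero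

lemma crt_I {q : ℕ} (hq : Sq F q) : qi F q ≠ ⊥ := by
  unfold qi
  rw [Ne, Ideal.span_singleton_eq_bot]
  exact_mod_cast crt_q0 hq

lemma crt_le {q : ℕ} (P : Ideal (𝓞 F)) : qi F q ≤ P ↔ (q : 𝓞 F) ∈ P := by
  unfold qi
  rw [Ideal.span_singleton_le_iff_mem]

/-- the primes of `q` -/
lemma crt_pr {q : ℕ} (hq : Sq F q) (P : PrI F) :
    P ∈ pf (qi F q) ↔ ∃ p ∈ q.primeFactors, (p : 𝓞 F) ∈ P.1 := by
  rw [mem_pf (crt_I hq), crt_le]
  constructor
  · intro h
    have h1 : (q : 𝓞 F) = ∏ p ∈ q.primeFactors, (p : 𝓞 F) := by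
      conv_lhs => rw [← Nat.prod_primeFactors_of_squarefree hq.1]
      push_cast
      rfl
    rw [h1] at h
    have hP : P.1.IsPrime := P.2.1
    exact hP.prod_mem_iff.1 h
  · rintro ⟨p, hp, h⟩
    obtain ⟨m, hm⟩ := Nat.dvd_of_mem_primeFactors hp
    rw [hm]
    push_cast
    exact P.1.mul_mem_right _ h

/-- two primes of `ℤ` in the same prime ideal -/
lemma crt_dis {p p' : ℕ} (hp : p.Prime) (hp' : p'.Prime) (P : PrI F) (h : (p : 𝓞 F) ∈ P.1)
    (h' : (p' : 𝓞 F) ∈ P.1) : p = p' := by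
  by_contra hne
  have hco : IsCoprime (p : ℤ) (p' : ℤ) :=
    Nat.isCoprime_iff_coprime.2 ((Nat.coprime_primes hp hp').2 hne)
  obtain ⟨a, b, hab⟩ := hco
  have h1 : (1 : 𝓞 F) ∈ P.1 := by
    have e : (1 : 𝓞 F) = (a : 𝓞 F) * (p : 𝓞 F) + (b : 𝓞 F) * (p' : 𝓞 F) := by
      exact_mod_cast congrArg (Int.cast : ℤ → 𝓞 F) hab.symm
    rw [e]
    exact P.1.add_mem (P.1.mul_mem_left _ h) (P.1.mul_mem_left _ h')
  exact P.2.1.ne_top ((Ideal.eq_top_iff_one _).2 h1)

end

open scoped Classical in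
theorem pf_CRT (hSPL : Pool.Agent.H20.SM.T_SPL) : T_CRT := by
  intro F _ _ _ q hq
  have hI := crt_I hq
  have hpr : ∀ p ∈ q.primeFactors, p.Prime := fun p hp => Nat.prime_of_mem_primeFactors hp
  -- norms of the primes
  have h5 : ∀ p ∈ q.primeFactors, ∀ P ∈ pf (qi F q), (p : 𝓞 F) ∈ P.1 → np P = p := by
    intro p hp P _ hpP
    have := ((hSPL F p (hq.2 p hp)).2.1 P.1 P.2.1 hpP).2
    unfold np nm
    rw [this]
  -- numbers of primes
  have h4 : ∀ p ∈ q.primeFactors, ((pf (qi F q)).filter fun P => (p : 𝓞 F) ∈ P.1).card =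
      Module.finrank ℚ F := by
    intro p hp
    have hs := hSPL F p (hq.2 p hp)
    have e : {P : Ideal (𝓞 F) | P.IsPrime ∧ (p : 𝓞 F) ∈ P} =
        ((((pf (qi F q)).filter fun P => (p : 𝓞 F) ∈ P.1).image Subtype.val :
          Finset (Ideal (𝓞 F))) : Set (Ideal (𝓞 F))) := by
      ext P
      rw [Finset.coe_image]
      constructor
      · rintro ⟨h1, h2⟩
        have h3 : P ≠ ⊥ := (hs.2.1 P h1 h2).1
        refine ⟨⟨P, h1, h3⟩, ?_, rfl⟩
        rw [Finset.mem_coe, Finset.mem_filter]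
        exact ⟨(crt_pr hq _).2 ⟨p, hp, h2⟩, h2⟩
      · rintro ⟨Q, hQ, rfl⟩
        rw [Finset.mem_coe, Finset.mem_filter] at hQ
        exact ⟨Q.2.1, hQ.2⟩
    have h := (hq.2 p hp).2
    rw [e, Set.ncard_coe_finset, Finset.card_image_of_injective _ Subtype.val_injective] at h
    exact h
  -- the norm of `q`
  have h6 : nm (qi F q) = (q : ℝ) ^ Module.finrank ℚ F := by
    unfold nm qi
    rw [Ideal.absNorm_span_natCast, RingOfIntegers.rank]
    push_cast
    rfl
  -- `q` is squarefree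
  have hnS : nS np (pf (qi F q)) = (q : ℝ) ^ Module.finrank ℚ F := by
    have e : pf (qi F q) = q.primeFactors.biUnion
        fun p => (pf (qi F q)).filter fun P => (p : 𝓞 F) ∈ P.1 := by
      ext P
      rw [Finset.mem_biUnion]
      constructor
      · intro h
        obtain ⟨p, hp, h1⟩ := (crt_pr hq P).1 h
        exact ⟨p, hp, Finset.mem_filter.2 ⟨h, h1⟩⟩
      · rintro ⟨p, _, h1⟩
        exact (Finset.mem_filter.1 h1).1
    have hd : (q.primeFactors : Set ℕ).PairwiseDisjoint
        fun p => (pf (qi F q)).filter fun P => (p : 𝓞 F) ∈ P.1 := by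
      intro p hp p' hp' hne
      rw [Function.onFun, Finset.disjoint_left]
      intro P h1 h2
      exact hne (crt_dis (hpr p hp) (hpr p' hp') P (Finset.mem_filter.1 h1).2
        (Finset.mem_filter.1 h2).2)
    unfold nS
    conv_lhs => rw [e]
    rw [Finset.prod_biUnion hd]
    have h7 : ∀ p ∈ q.primeFactors, (∏ P ∈ (pf (qi F q)).filter fun P => (p : 𝓞 F) ∈ P.1, np P) =
        (p : ℝ) ^ Module.finrank ℚ F := by
      intro p hp
      rw [Finset.prod_congr rfl fun P hP => h5 p hp P (Finset.mem_filter.1 hP).1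
        (Finset.mem_filter.1 hP).2, Finset.prod_const, h4 p hp]
    rw [Finset.prod_congr rfl h7, Finset.prod_pow]
    congr 1
    rw [← Nat.cast_prod, Nat.prod_primeFactors_of_squarefree hq.1]
  have hfull : qi F q = idS (pf (qi F q)) := by
    have h7 : idS (pf (qi F q)) ∣ qi F q := idS_dvd fun P hP => (mem_pf hI P).1 hP
    obtain ⟨e, he⟩ := h7
    have h8 : nm (qi F q) = nm (idS (pf (qi F q))) * nm e := by
      conv_lhs => rw [he]
      exact nm_mul _ _
    rw [nm_idS, hnS, h6] at h8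
    have h9 : (0 : ℝ) < (q : ℝ) ^ Module.finrank ℚ F := by
      have := Nat.pos_of_ne_zero (crt_q0 hq)
      positivity
    have h10 : nm e = 1 := by
      have : (q : ℝ) ^ Module.finrank ℚ F * nm e = (q : ℝ) ^ Module.finrank ℚ F * 1 := by
        rw [← h8, mul_one]
      exact mul_left_cancel₀ h9.ne' this
    have h11 : e = ⊤ := by
      unfold nm at h10
      have : Ideal.absNorm e = 1 := by exact_mod_cast h10
      exact Ideal.absNorm_eq_one_iff.1 this
    conv_lhs => rw [he, h11]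
    rw [← Ideal.one_eq_top, mul_one]
  refine ⟨?_, ?_, crt_pr hq, h4, h5, h6⟩
  · intro d hd
    have hd0 : d ≠ ⊥ := by
      rintro rfl
      exact hI (le_bot_iff.1 hd)
    have hsub : pf d ⊆ pf (qi F q) := by
      intro P hP
      rw [mem_pf hI]
      exact hd.trans ((mem_pf hd0 P).1 hP)
    have heq : d = idS (pf d) := by
      have h7 : idS (pf d) ∣ d := idS_dvd fun P hP => (mem_pf hd0 P).1 hP
      obtain ⟨f, hf⟩ := h7
      by_cases hft : f = ⊤
      · conv_lhs => rw [hf, hft]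
        rw [← Ideal.one_eq_top, mul_one]
      · exfalso
        obtain ⟨M, hM, hfM⟩ := Ideal.exists_le_maximal f hft
        have hf0 : f ≠ ⊥ := by
          rintro rfl
          exact hd0 (by rw [hf, Ideal.mul_bot])
        have hM0 : M ≠ ⊥ := by
          rintro rfl
          exact hf0 (le_bot_iff.1 hfM)
        set P : PrI F := ⟨M, hM.isPrime, hM0⟩ with hPdef
        have hMf : P.1 ∣ f := Ideal.dvd_iff_le.2 hfM
        have hMd : P.1 ∣ d := by
          rw [hf]
          exact Dvd.dvd.mul_left hMf _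
        have hPd : P ∈ pf d := (mem_pf hd0 P).2 (Ideal.dvd_iff_le.1 hMd)
        have hPi : P.1 ∣ idS (pf d) := by
          unfold idS
          exact Finset.dvd_prod_of_mem _ hPd
        have h8 : P.1 * P.1 ∣ d := by
          rw [hf]
          exact mul_dvd_mul hPi hMf
        have h9 : P.1 * P.1 ∣ idS (pf (qi F q)) := by
          rw [← hfull]
          exact h8.trans (Ideal.dvd_iff_le.2 hd)
        have h10 : idS (pf (qi F q)) = P.1 * idS ((pf (qi F q)).erase P) := by
          unfold idS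
          exact (Finset.mul_prod_erase _ (fun P : PrI F => P.1) (hsub hPd)).symm
        rw [h10] at h9
        have h11 : P.1 ∣ idS ((pf (qi F q)).erase P) :=
          (mul_dvd_mul_iff_left P.2.2).1 h9
        exact Finset.notMem_erase P _ (idS_le (Ideal.dvd_iff_le.1 h11))
    refine ⟨heq, ?_, hsub⟩
    conv_lhs => rw [heq]
    exact nm_idS _
  · intro S hS
    refine ⟨Ideal.dvd_iff_le.1 (idS_dvd fun P hP => (mem_pf hI P).1 (hS hP)), ?_⟩
    ext P
    rw [mem_pf (idS_ne S)]
    constructor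
    · exact idS_le
    · intro hP
      refine Ideal.dvd_iff_le.1 ?_
      unfold idS
      exact Finset.dvd_prod_of_mem _ hP

end Pool.Agent.H78.SM
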